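import Mathlib
import Pool.Agent.P8H13.CL.Low
import Pool.Agent.P8H13.CL.Dens
import Pool.Agent.P8H13.CL.TopC
import Pool.Agent.P8H13.CL.Bad
import Pool.Agent.P8H13.NP.Pair
import Pool.Agent.P8H13.OP.Meas
import Pool.Agent.P8H13.OP.Sets
import Pool.Agent.P8H13.OP.Top

/-!
# Many primes near prescribed relative positions for a positive proportion of the rows (helper13)
-/

set_option autoImplicit false

namespace Pool.Agent.P8H13.NQ

open Finset Filter Topology MeasureTheory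
open Pool.Agent.P8H13.OP (q q_cast Row F mem_F meas_F vol_F fin_F rowsum2)
open Pool.Agent.P8H13.CL (Bad meas_Bad vol_Bad good q_mod q_ge io many hits hits_meas)
open Pool.Agent.P8H13.NP (wt moments)

/-- the number of the `x ∈ (N, 2 N]` with at least `t` primes `q b x + ⌊α x⌋ + j`, `1 ≤ j ≤ H` -/
noncomputable def near (b : ℤ) (α : ℝ) (H : ℕ) (t : ℝ) (N : ℕ) : ℕ :=
  ((Ioc N (2 * N)).filter (fun x : ℕ => t ≤ (wt H (q b x + ⌊α * x⌋₊) : ℝ))).card

theorem near_meas (b : ℤ) (H : ℕ) (t : ℝ) (N : ℕ) : Measurable (fun α : ℝ => (near b α H t N : ℝ)) := by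
  unfold near
  simp only [card_filter]
  push_cast
  apply Finset.measurable_sum
  intro x _
  have h1 : Measurable (fun α : ℝ => ⌊α * (x : ℝ)⌋₊) :=
    Nat.measurable_floor.comp (measurable_id.mul_const _)
  have h2 : MeasurableSet {α : ℝ | t ≤ (wt H (q b x + ⌊α * (x : ℝ)⌋₊) : ℝ)} :=
    h1 (MeasurableSet.of_discrete (s := {n : ℕ | t ≤ (wt H (q b x + n) : ℝ)}))
  exact Measurable.ite h2 measurable_const measurable_const

/-- the shifted row -/
noncomputable def RowS (b : ℤ) (β γ : ℝ) (x j : ℕ) : Finset ℕ := by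
  classical exact (range (x + 1)).filter (fun a : ℕ => a + j ∈ Row b 1 β γ x)

theorem mem_Row (b : ℤ) (β γ : ℝ) (x a : ℕ) (h : a ∈ Row b 1 β γ x) :
    a < x + 1 ∧ β * x ≤ a ∧ (a : ℝ) + 1 ≤ γ * x ∧ (q b x + a).Prime := by
  unfold Row at h
  rw [mem_filter, mem_range, Real.rpow_one] at h
  exact h

theorem card_RowS (b : ℤ) (β γ : ℝ) (x j : ℕ) (hj : (j : ℝ) ≤ β * x) :
    ((Row b 1 β γ x).card : ℝ) ≤ ((RowS b β γ x j).card : ℝ) := by
  classical
  have h1 : (Row b 1 β γ x).card ≤ (RowS b β γ x j).card := by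
    apply card_le_card_of_injOn (fun a => a - j)
    · intro a ha
      rw [Finset.mem_coe] at ha
      have h2 := mem_Row b β γ x a ha
      have h3 : j ≤ a := by
        have : (j : ℝ) ≤ a := hj.trans h2.2.1
        exact_mod_cast this
      rw [Finset.mem_coe]
      unfold RowS
      rw [mem_filter, mem_range]
      show a - j < x + 1 ∧ (a - j) + j ∈ Row b 1 β γ x
      refine ⟨by omega, ?_⟩
      rw [Nat.sub_add_cancel h3]
      exact ha
    · intro a ha a' ha' haa
      rw [Finset.mem_coe] at ha ha'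
      have h2 := mem_Row b β γ x a ha
      have h2' := mem_Row b β γ x a' ha'
      have h3 : j ≤ a := by
        have : (j : ℝ) ≤ a := hj.trans h2.2.1
        exact_mod_cast this
      have h3' : j ≤ a' := by
        have : (j : ℝ) ≤ a' := hj.trans h2'.2.1
        exact_mod_cast this
      simp only at haa
      omega
  exact_mod_cast h1

theorem F_subS (b : ℤ) (β β' γ : ℝ) (x j : ℕ) (hx : 1 ≤ x) (hj : (j : ℝ) ≤ (β' - β) * x) (α : ℝ)
    (h : α ∈ F (x : ℝ) (RowS b β' γ x j)) :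
    α ∈ Set.Icc β γ ∧ (q b x + ⌊α * (x : ℝ)⌋₊ + j).Prime := by
  classical
  have hx0 : (0 : ℝ) < x := by exact_mod_cast hx
  rw [mem_F hx0] at h
  obtain ⟨h0, h1⟩ := h
  unfold RowS at h1
  rw [mem_filter] at h1
  obtain ⟨h2, h3, h4⟩ := (mem_Row b β' γ x _ h1.2).2
  push_cast at h2 h3
  have h5 : (⌊α * (x : ℝ)⌋₊ : ℝ) ≤ α * x := Nat.floor_le (by positivity)
  have h6 : α * x < (⌊α * (x : ℝ)⌋₊ : ℝ) + 1 := Nat.lt_floor_add_one _
  have hj0 : (0 : ℝ) ≤ j := Nat.cast_nonneg j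
  refine ⟨⟨?_, ?_⟩, ?_⟩
  · have h7 : β * x ≤ α * x := by linarith
    exact le_of_mul_le_mul_right h7 hx0
  · have h7 : α * x ≤ γ * x := by linarith
    exact le_of_mul_le_mul_right h7 hx0
  · rw [Nat.add_assoc]
    exact h4

/-- the measure of the `α` with many rows -/
theorem lowQ (b : ℤ) (hb : b = 0 ∨ b = -1) : ∃ κ₀ τ c₃ : ℝ, 0 < κ₀ ∧ 0 < τ ∧ 0 < c₃ ∧ ∀ lam : ℝ, 0 < lam →
    ∀ β γ : ℝ, 0 ≤ β → β < γ → γ ≤ 1 → ∃ N₀ : ℕ, ∀ N : ℕ, N₀ ≤ N →
      c₃ * (γ - β) ≤ (volume ({α : ℝ | κ₀ * (lam / (1 + lam)) * N ≤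
        (near b α ⌊lam * Real.log N⌋₊ (max 1 (τ * lam)) N : ℝ)} ∩ Set.Icc β γ)).toReal := by
  classical
  obtain ⟨c, hc, hrow⟩ := rowsum2 b hb
  obtain ⟨C, hC, N₁, hmom⟩ := moments
  have hC0 : 0 < C := by linarith
  refine ⟨c ^ 2 / (576 * C), c / 48, c / (32 * C), by positivity, by positivity, by positivity,
    fun lam hlam β γ hβ hβγ hγ => ?_⟩
  obtain ⟨s, hs⟩ : ∃ s : ℝ, s = 12 * C * (1 + lam) / c := ⟨_, rfl⟩
  have hs0 : 0 < s := by rw [hs]; positivity
  obtain ⟨κ, hκ⟩ : ∃ κ : ℝ, κ = c * lam / (48 * s) := ⟨_, rfl⟩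
  obtain ⟨t, ht⟩ : ∃ t : ℝ, t = max 1 (c / 48 * lam) := ⟨_, rfl⟩
  have hκ' : c ^ 2 / (576 * C) * (lam / (1 + lam)) = κ := by
    rw [hκ, hs]
    field_simp
    norm_num
  obtain ⟨Δ, hΔ⟩ : ∃ Δ : ℝ, Δ = γ - β := ⟨_, rfl⟩
  have hΔ0 : 0 < Δ := by rw [hΔ]; linarith
  obtain ⟨β', hβ'⟩ : ∃ β' : ℝ, β' = β + Δ / 2 := ⟨_, rfl⟩
  have hβ'0 : 0 ≤ β' := by rw [hβ']; positivity
  have hβ'γ : β' < γ := by rw [hβ', hΔ]; linarith
  obtain ⟨N₂, hN₂⟩ := hrow β' γ hβ'0 hβ'γ hγ
  have hlog : Tendsto (fun N : ℕ => lam * Real.log N) atTop atTop :=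
    (Real.tendsto_log_atTop.comp tendsto_natCast_atTop_atTop).const_mul_atTop hlam
  have hlp : ∀ᶠ N : ℕ in atTop, 2 ≤ lam * Real.log N ∧
      128 / (c * Δ) * Real.log N ≤ (N : ℝ) ^ (1 / 2 : ℝ) ∧ lam * Real.log N ≤ Δ / 2 * N := by
    have h1 : (fun x : ℝ => Real.log x) =o[atTop] (fun x : ℝ => x ^ (1 / 2 : ℝ)) :=
      isLittleO_log_rpow_atTop (by norm_num)
    have h2 := h1.bound (show (0 : ℝ) < c * Δ / 128 by positivity)
    have h3 := tendsto_natCast_atTop_atTop.eventually h2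
    have h1' : (fun x : ℝ => Real.log x) =o[atTop] (fun x : ℝ => x ^ (1 : ℝ)) :=
      isLittleO_log_rpow_atTop (by norm_num)
    have h2' := h1'.bound (show (0 : ℝ) < Δ / (2 * lam) by positivity)
    have h3' := tendsto_natCast_atTop_atTop.eventually h2'
    filter_upwards [h3, h3', eventually_ge_atTop 1, hlog.eventually_ge_atTop 2] with N hN hN' hN1 hN2
    have hN1' : (1 : ℝ) ≤ N := by exact_mod_cast hN1
    rw [Real.norm_of_nonneg (Real.log_nonneg hN1'),
      Real.norm_of_nonneg (Real.rpow_nonneg (by linarith) _)] at hN hN'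
    refine ⟨hN2, ?_, ?_⟩
    · calc 128 / (c * Δ) * Real.log N ≤ 128 / (c * Δ) * (c * Δ / 128 * (N : ℝ) ^ (1 / 2 : ℝ)) := by gcongr
        _ = _ := by field_simp
    · rw [Real.rpow_one] at hN'
      calc lam * Real.log N ≤ lam * (Δ / (2 * lam) * N) := by gcongr
        _ = _ := by field_simp
  obtain ⟨N₃, hN₃⟩ := eventually_atTop.1 hlp
  refine ⟨N₁ + N₂ + N₃ + 3, fun N hN => ?_⟩
  obtain ⟨b1, b3, b4⟩ := hN₃ N (by omega)
  have hNr3 : (3 : ℝ) ≤ N := by exact_mod_cast (by omega : 3 ≤ N)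
  have hN0 : (0 : ℝ) < N := by linarith
  have hlN : 0 < Real.log N := Real.log_pos (by linarith)
  obtain ⟨H, hH⟩ : ∃ H : ℕ, H = ⌊lam * Real.log N⌋₊ := ⟨_, rfl⟩
  have hH1 : (H : ℝ) ≤ lam * Real.log N := by rw [hH]; exact Nat.floor_le (by positivity)
  have hH2 : lam * Real.log N < H + 1 := by rw [hH]; exact Nat.lt_floor_add_one _
  have hH3 : lam * Real.log N / 2 ≤ H := by linarith
  rw [← hH, ← hΔ, hκ', ← ht]
  have hS := hN₂ N (by omega)
  have e0 : γ - β' = Δ / 2 := by rw [hβ', hΔ]; ring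
  rw [e0] at hS
  obtain ⟨P, hP⟩ : ∃ P : Set ℝ, P = {α : ℝ | κ * N ≤ (near b α H t N : ℝ)} ∩ Set.Icc β γ := ⟨_, rfl⟩
  rw [← hP]
  have hPm : MeasurableSet P := by
    rw [hP]
    exact (measurableSet_le measurable_const (near_meas b H t N)).inter measurableSet_Icc
  have hPf : volume P ≠ ⊤ := by
    refine ne_top_of_le_ne_top ?_ (measure_mono (show P ⊆ Set.Icc β γ by
      rw [hP]
      exact Set.inter_subset_right))
    rw [Real.volume_Icc]
    exact ENNReal.ofReal_ne_top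
  have hBv := vol_Bad N (by omega)
  have hBf : volume (Bad N) ≠ ⊤ := ne_top_of_le_ne_top ENNReal.ofReal_ne_top hBv
  have hBr : (volume (Bad N)).toReal ≤ 4 * (N : ℝ) ^ (-(1 / 2) : ℝ) :=
    ENNReal.toReal_le_of_le_ofReal (by positivity) hBv
  have hIm : MeasurableSet (Set.Icc β γ) := measurableSet_Icc
  have hIf : volume (Set.Icc β γ) ≠ ⊤ := by
    rw [Real.volume_Icc]
    exact ENNReal.ofReal_ne_top
  have hIr : (volume (Set.Icc β γ)).toReal = Δ := by
    rw [Real.volume_Icc, ENNReal.toReal_ofReal (by linarith), hΔ]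
  obtain ⟨G, hG⟩ : ∃ G : ℕ → ℕ → Set ℝ, G = fun x j : ℕ => F (x : ℝ) (RowS b β' γ x j) := ⟨_, rfl⟩
  have hGm : ∀ x j, MeasurableSet (G x j) := by
    intro x j
    rw [hG]
    exact meas_F _ _
  have hGf : ∀ x ∈ Ioc N (2 * N), ∀ j, volume (G x j) ≠ ⊤ := by
    intro x hx j
    rw [mem_Ioc] at hx
    rw [hG]
    apply fin_F
    exact_mod_cast (by omega : 0 < x)
  have hint : ∀ s : Set ℝ, MeasurableSet s → volume s ≠ ⊤ →
      Integrable (s.indicator (fun _ => (1 : ℝ))) volume ∧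
        ∫ x, s.indicator (fun _ => (1 : ℝ)) x = (volume s).toReal := by
    intro s hs hs2
    constructor
    · exact (integrable_indicator_iff hs).2 (integrableOn_const hs2)
    · rw [integral_indicator hs, setIntegral_const, smul_eq_mul, mul_one]
      rfl
  have hI1x : ∀ x ∈ Ioc N (2 * N),
      Integrable (fun α => ∑ j ∈ Icc 1 H, (G x j).indicator (fun _ => (1 : ℝ)) α) volume := fun x hx =>
    integrable_finsetSum _ fun j _ => (hint (G x j) (hGm x j) (hGf x hx j)).1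
  have hI1 : Integrable (fun α => ∑ x ∈ Ioc N (2 * N), ∑ j ∈ Icc 1 H,
      (G x j).indicator (fun _ => (1 : ℝ)) α) volume :=
    integrable_finsetSum _ hI1x
  have hI2 : Integrable (fun α => c * lam / 16 * N * (Set.Icc β γ).indicator (fun _ => (1 : ℝ)) α) volume :=
    (hint _ hIm hIf).1.const_mul _
  have hI3 : Integrable (fun α => C * lam * N * P.indicator (fun _ => (1 : ℝ)) α) volume :=
    (hint _ hPm hPf).1.const_mul _
  have hI4 : Integrable (fun α => (N : ℝ) * (lam * Real.log N) * (Bad N).indicator (fun _ => (1 : ℝ)) α) volume :=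
    (hint _ (meas_Bad N) hBf).1.const_mul _
  have hI23 : Integrable (fun α => c * lam / 16 * N * (Set.Icc β γ).indicator (fun _ => (1 : ℝ)) α +
      C * lam * N * P.indicator (fun _ => (1 : ℝ)) α) volume := hI2.add hI3
  have hind : ∀ (s : Set ℝ) (α : ℝ), 0 ≤ s.indicator (fun _ => (1 : ℝ)) α := fun s α =>
    Set.indicator_nonneg (fun _ _ => zero_le_one) α
  have hjx : ∀ x ∈ Ioc N (2 * N), ∀ j ∈ Icc 1 H, (j : ℝ) ≤ (β' - β) * x := by
    intro x hx j hj
    rw [mem_Ioc] at hx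
    rw [mem_Icc] at hj
    have h1 : (j : ℝ) ≤ H := by exact_mod_cast hj.2
    have h2 : (N : ℝ) ≤ x := by exact_mod_cast hx.1.le
    have e : β' - β = Δ / 2 := by rw [hβ']; ring
    rw [e]
    have h3 : Δ / 2 * (N : ℝ) ≤ Δ / 2 * x := mul_le_mul_of_nonneg_left h2 (by positivity)
    linarith
  have key : ∫ α, ∑ x ∈ Ioc N (2 * N), ∑ j ∈ Icc 1 H, (G x j).indicator (fun _ => (1 : ℝ)) α ≤
      ∫ α, (c * lam / 16 * N * (Set.Icc β γ).indicator (fun _ => (1 : ℝ)) α +
        C * lam * N * P.indicator (fun _ => (1 : ℝ)) α +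
        (N : ℝ) * (lam * Real.log N) * (Bad N).indicator (fun _ => (1 : ℝ)) α) := by
    refine integral_mono hI1 ((hI2.add hI3).add hI4) fun α => ?_
    have hp1 := mul_nonneg (by positivity : 0 ≤ c * lam / 16 * (N : ℝ)) (hind (Set.Icc β γ) α)
    have hp2 := mul_nonneg (by positivity : 0 ≤ C * lam * (N : ℝ)) (hind P α)
    have hp3 := mul_nonneg (by positivity : 0 ≤ (N : ℝ) * (lam * Real.log N)) (hind (Bad N) α)
    simp only
    have hGsub : ∀ x ∈ Ioc N (2 * N), ∀ j ∈ Icc 1 H, α ∈ G x j →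
        α ∈ Set.Icc β γ ∧ (q b x + ⌊α * (x : ℝ)⌋₊ + j).Prime := by
      intro x hx j hj hα
      have h2 := hjx x hx j hj
      rw [mem_Ioc] at hx
      rw [hG] at hα
      exact F_subS b β β' γ x j (by omega) h2 α hα
    by_cases hα : α ∈ Set.Icc β γ
    · obtain ⟨S, hSd⟩ : ∃ S : ℝ, S = ∑ x ∈ Ioc N (2 * N), (wt H (q b x + ⌊α * (x : ℝ)⌋₊) : ℝ) := ⟨_, rfl⟩
      have hnum : ∑ x ∈ Ioc N (2 * N), ∑ j ∈ Icc 1 H, (G x j).indicator (fun _ => (1 : ℝ)) α ≤ S := by
        rw [hSd]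
        apply sum_le_sum
        intro x hx
        unfold wt
        rw [card_filter]
        push_cast
        apply sum_le_sum
        intro j hj
        by_cases h1 : α ∈ G x j
        · rw [Set.indicator_of_mem h1, if_pos (hGsub x hx j hj h1).2]
        · rw [Set.indicator_of_notMem h1]
          split_ifs <;> norm_num
      by_cases hB : α ∈ Bad N
      · rw [Set.indicator_of_mem hB]
        rw [Set.indicator_of_mem hB] at hp3
        have hN : S ≤ N * (lam * Real.log N) := by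
          rw [hSd]
          have h2 : ∀ x ∈ Ioc N (2 * N), (wt H (q b x + ⌊α * (x : ℝ)⌋₊) : ℝ) ≤ lam * Real.log N := by
            intro x _
            refine le_trans ?_ hH1
            have h3 : wt H (q b x + ⌊α * (x : ℝ)⌋₊) ≤ H := by
              unfold wt
              refine (card_filter_le _ _).trans ?_
              rw [Nat.card_Icc]
              omega
            exact_mod_cast h3
          refine (sum_le_sum h2).trans (le_of_eq ?_)
          rw [sum_const, Nat.card_Ioc, nsmul_eq_mul]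
          have : ((2 * N - N : ℕ) : ℝ) = N := by
            congr 1
            omega
          rw [this]
        linarith
      · obtain ⟨h, qq, hq1, hq2, hq3, hq4, hq5⟩ := good N (by omega) α (hβ.trans hα.1) (hα.2.trans hγ) hB
        obtain ⟨m1, m2⟩ := hmom N (by omega) (q b) (q_mod b hb) (q_ge b hb N) α h qq (hβ.trans hα.1)
          hq1 hq2 hq3 hq4 hq5 H
        rw [← hSd] at m1
        have hμ : (H : ℝ) / Real.log N ≤ lam := by
          rw [div_le_iff₀ hlN]
          exact hH1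
        have hμ0 : 0 ≤ (H : ℝ) / Real.log N := by positivity
        by_cases hPα : α ∈ P
        · rw [Set.indicator_of_mem hPα]
          have h2 : C * (H / Real.log N) * N ≤ C * lam * N := by gcongr
          linarith
        · have h1 : (near b α H t N : ℝ) < κ * N := by
            by_contra h2
            push Not at h2
            apply hPα
            rw [hP]
            exact ⟨h2, hα⟩
          rw [Set.indicator_of_mem hα]
          -- Cauchy-Schwarz
          have h2 : S ≤ c * lam / 48 * N + (s * near b α H t N + 1 / (4 * s) *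
              ∑ x ∈ Ioc N (2 * N), (wt H (q b x + ⌊α * (x : ℝ)⌋₊) : ℝ) ^ 2) := by
            have hcN : c * lam / 48 * N = ∑ _x ∈ Ioc N (2 * N), c * lam / 48 := by
              rw [sum_const, Nat.card_Ioc, nsmul_eq_mul]
              have : ((2 * N - N : ℕ) : ℝ) = N := by
                congr 1
                omega
              rw [this]
              ring
            rw [hSd, hcN]
            unfold near
            rw [card_filter]
            push_cast
            rw [mul_sum, mul_sum, ← sum_add_distrib, ← sum_add_distrib]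
            apply sum_le_sum
            intro x _
            have hcl : 0 ≤ c * lam / 48 := by positivity
            by_cases h3 : t ≤ (wt H (q b x + ⌊α * (x : ℝ)⌋₊) : ℝ)
            · rw [if_pos h3]
              have h4 : 0 ≤ ((wt H (q b x + ⌊α * (x : ℝ)⌋₊) : ℝ) - 2 * s) ^ 2 := sq_nonneg _
              have h5 : s * 1 + 1 / (4 * s) * (wt H (q b x + ⌊α * (x : ℝ)⌋₊) : ℝ) ^ 2 -
                  (wt H (q b x + ⌊α * (x : ℝ)⌋₊) : ℝ) =
                  1 / (4 * s) * ((wt H (q b x + ⌊α * (x : ℝ)⌋₊) : ℝ) - 2 * s) ^ 2 := by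
                field_simp
                ring
              have h6 : 0 ≤ 1 / (4 * s) * ((wt H (q b x + ⌊α * (x : ℝ)⌋₊) : ℝ) - 2 * s) ^ 2 := by positivity
              linarith
            · rw [if_neg h3]
              push Not at h3
              have h6 : 0 ≤ 1 / (4 * s) * (wt H (q b x + ⌊α * (x : ℝ)⌋₊) : ℝ) ^ 2 := by positivity
              have h7 : (wt H (q b x + ⌊α * (x : ℝ)⌋₊) : ℝ) ≤ c * lam / 48 := by
                rw [ht, lt_max_iff] at h3
                rcases h3 with h8 | h8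
                · have h9 : wt H (q b x + ⌊α * (x : ℝ)⌋₊) < 1 := by exact_mod_cast h8
                  have h10 : wt H (q b x + ⌊α * (x : ℝ)⌋₊) = 0 := by omega
                  rw [h10]
                  simpa using hcl
                · have e : c / 48 * lam = c * lam / 48 := by ring
                  rw [e] at h8
                  exact h8.le
              linarith
          have h3 : ∑ x ∈ Ioc N (2 * N), (wt H (q b x + ⌊α * (x : ℝ)⌋₊) : ℝ) ^ 2 ≤ C * (lam + lam ^ 2) * N := by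
            refine m2.trans ?_
            have h4 : ((H : ℝ) / Real.log N) ^ 2 ≤ lam ^ 2 := pow_le_pow_left₀ hμ0 hμ 2
            gcongr
          have h4 : 1 / (4 * s) * (C * (lam + lam ^ 2) * N) = c * lam / 48 * N := by
            rw [hs]
            field_simp
            ring
          have h5 : s * (κ * N) = c * lam / 48 * N := by
            rw [hκ]
            field_simp
          have h6 : 1 / (4 * s) * ∑ x ∈ Ioc N (2 * N), (wt H (q b x + ⌊α * (x : ℝ)⌋₊) : ℝ) ^ 2 ≤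
              c * lam / 48 * N := by
            rw [← h4]
            exact mul_le_mul_of_nonneg_left h3 (by positivity)
          have h7 : s * (near b α H t N : ℝ) ≤ c * lam / 48 * N := by
            rw [← h5]
            exact mul_le_mul_of_nonneg_left h1.le hs0.le
          linarith
    · have h0 : ∑ x ∈ Ioc N (2 * N), ∑ j ∈ Icc 1 H, (G x j).indicator (fun _ => (1 : ℝ)) α = 0 := by
        apply sum_eq_zero
        intro x hx
        apply sum_eq_zero
        intro j hj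
        apply Set.indicator_of_notMem
        intro h1
        exact hα (hGsub x hx j hj h1).1
      rw [h0]
      linarith
  rw [integral_finsetSum _ hI1x,
    integral_add hI23 hI4, integral_add hI2 hI3, integral_const_mul, integral_const_mul,
    integral_const_mul, (hint _ hIm hIf).2, (hint _ hPm hPf).2, (hint _ (meas_Bad N) hBf).2, hIr] at key
  have hlow : c * lam / 8 * Δ * N ≤ ∑ x ∈ Ioc N (2 * N),
      ∫ α, ∑ j ∈ Icc 1 H, (G x j).indicator (fun _ => (1 : ℝ)) α := by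
    have h1 : ∀ x ∈ Ioc N (2 * N), (H : ℝ) * (((Row b 1 β' γ x).card : ℝ) / (2 * N)) ≤
        ∫ α, ∑ j ∈ Icc 1 H, (G x j).indicator (fun _ => (1 : ℝ)) α := by
      intro x hx
      rw [integral_finsetSum _ fun j _ => (hint (G x j) (hGm x j) (hGf x hx j)).1]
      have h2 : ∀ j ∈ Icc 1 H, ((Row b 1 β' γ x).card : ℝ) / (2 * N) ≤
          ∫ α, (G x j).indicator (fun _ => (1 : ℝ)) α := by
        intro j hj
        rw [(hint (G x j) (hGm x j) (hGf x hx j)).2]
        have h3 := hjx x hx j hj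
        rw [mem_Ioc] at hx
        have hx0 : (0 : ℝ) < x := by exact_mod_cast (by omega : 0 < x)
        rw [hG]
        simp only
        rw [vol_F hx0]
        have h4 : (j : ℝ) ≤ β' * x := by
          have h5 : 0 ≤ β * x := by positivity
          nlinarith
        have h5 := card_RowS b β' γ x j h4
        calc ((Row b 1 β' γ x).card : ℝ) / (2 * N) ≤ ((Row b 1 β' γ x).card : ℝ) / x := by
              apply div_le_div_of_nonneg_left (Nat.cast_nonneg _) hx0
              exact_mod_cast hx.2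
          _ ≤ ((RowS b β' γ x j).card : ℝ) / x := div_le_div_of_nonneg_right h5 hx0.le
      refine le_trans (le_of_eq ?_) (sum_le_sum h2)
      rw [sum_const, Nat.card_Icc, nsmul_eq_mul]
      simp
    refine le_trans ?_ (sum_le_sum h1)
    rw [← mul_sum, ← sum_div]
    have h2 : c * (Δ / 2) * ((N : ℝ) * (N / Real.log N)) / (2 * N) ≤
        (∑ x ∈ Ioc N (2 * N), ((Row b 1 β' γ x).card : ℝ)) / (2 * N) :=
      div_le_div_of_nonneg_right hS (by positivity)
    calc c * lam / 8 * Δ * N = (lam * Real.log N / 2) * (c * (Δ / 2) * ((N : ℝ) * (N / Real.log N)) / (2 * N)) := by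
          field_simp
          ring
      _ ≤ H * (c * (Δ / 2) * ((N : ℝ) * (N / Real.log N)) / (2 * N)) :=
          mul_le_mul_of_nonneg_right hH3 (by positivity)
      _ ≤ _ := mul_le_mul_of_nonneg_left h2 (by positivity)
  have hfin := hlow.trans key
  have hNh : (N : ℝ) * (4 * (N : ℝ) ^ (-(1 / 2) : ℝ)) = 4 * (N : ℝ) ^ (1 / 2 : ℝ) := by
    have : (N : ℝ) ^ (1 / 2 : ℝ) = N * (N : ℝ) ^ (-(1 / 2) : ℝ) := by
      nth_rewrite 2 [← Real.rpow_one (N : ℝ)]
      rw [← Real.rpow_add hN0]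
      norm_num
    rw [this]
    ring
  have hNB : (N : ℝ) * (lam * Real.log N) * (volume (Bad N)).toReal ≤ c * lam / 32 * Δ * N := by
    have h1 : (N : ℝ) * (lam * Real.log N) * (volume (Bad N)).toReal ≤
        (lam * Real.log N) * (4 * (N : ℝ) ^ (1 / 2 : ℝ)) := by
      rw [← hNh]
      calc (N : ℝ) * (lam * Real.log N) * (volume (Bad N)).toReal ≤
          (N : ℝ) * (lam * Real.log N) * (4 * (N : ℝ) ^ (-(1 / 2) : ℝ)) :=
            mul_le_mul_of_nonneg_left hBr (by positivity)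
        _ = _ := by ring
    refine h1.trans ?_
    have h2 : (N : ℝ) = (N : ℝ) ^ (1 / 2 : ℝ) * (N : ℝ) ^ (1 / 2 : ℝ) := by
      rw [← Real.rpow_add hN0]
      norm_num
    have h3 : 128 * Real.log N ≤ c * Δ * (N : ℝ) ^ (1 / 2 : ℝ) := by
      have h4 : 128 / (c * Δ) * Real.log N = 128 * Real.log N / (c * Δ) := by ring
      rw [h4, div_le_iff₀ (by positivity)] at b3
      linarith
    have h5 : 0 ≤ (N : ℝ) ^ (1 / 2 : ℝ) := by positivity
    calc (lam * Real.log N) * (4 * (N : ℝ) ^ (1 / 2 : ℝ)) =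
        (N : ℝ) ^ (1 / 2 : ℝ) * lam * (128 * Real.log N) / 32 := by ring
      _ ≤ (N : ℝ) ^ (1 / 2 : ℝ) * lam * (c * Δ * (N : ℝ) ^ (1 / 2 : ℝ)) / 32 := by
          apply div_le_div_of_nonneg_right _ (by norm_num)
          exact mul_le_mul_of_nonneg_left h3 (by positivity)
      _ = c * lam / 32 * Δ * ((N : ℝ) ^ (1 / 2 : ℝ) * (N : ℝ) ^ (1 / 2 : ℝ)) := by ring
      _ = c * lam / 32 * Δ * N := by rw [← h2]
  have h1 : c * lam / 32 * Δ * N ≤ C * lam * N * (volume P).toReal := by linarith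
  have h2 : (c / 32 * Δ) * (lam * N) ≤ (C * (volume P).toReal) * (lam * N) := by linarith
  have h3 := le_of_mul_le_mul_right h2 (by positivity)
  have e : c / (32 * C) * Δ = (c / 32 * Δ) / C := by
    field_simp
  rw [e, div_le_iff₀ hC0]
  linarith

theorem wt_mono {H H' : ℕ} (h : H ≤ H') (v : ℕ) : wt H v ≤ wt H' v := by
  unfold wt
  apply card_le_card
  intro j hj
  rw [mem_filter, mem_Icc] at hj ⊢
  exact ⟨⟨hj.1.1, hj.1.2.trans h⟩, hj.2⟩

theorem near_mono (b : ℤ) (α : ℝ) {H H' : ℕ} (h : H ≤ H') {t t' : ℝ} (ht : t' ≤ t) (N : ℕ) :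
    near b α H t N ≤ near b α H' t' N := by
  unfold near
  apply card_le_card
  intro x hx
  rw [mem_filter] at hx ⊢
  have h1 : (wt H (q b x + ⌊α * (x : ℝ)⌋₊) : ℝ) ≤ wt H' (q b x + ⌊α * (x : ℝ)⌋₊) := by
    exact_mod_cast wt_mono h _
  exact ⟨hx.1, (ht.trans hx.2).trans h1⟩

/-- **many good scales, for almost all lines** -/
theorem densN (b : ℤ) (hb : b = 0 ∨ b = -1) : ∃ κ τ δ : ℝ, 0 < κ ∧ 0 < τ ∧ 0 < δ ∧
    ∀ u : ℕ → ℕ, StrictMono u →
    ∀ᵐ α : ℝ, α ∈ Set.Ioo (0 : ℝ) 1 → ∀ lam : ℝ, 0 < lam → ∃ᶠ K : ℕ in atTop,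
      δ * K ≤ (((range K).filter (fun k : ℕ =>
        κ * (lam / (1 + lam)) * (u k : ℝ) ≤
          (near b α ⌊lam * Real.log (u k)⌋₊ (max 1 (τ * lam)) (u k) : ℝ))).card : ℝ) := by
  classical
  obtain ⟨κ, τ, c₃, hκ, hτ, hc₃, h⟩ := lowQ b hb
  refine ⟨κ / 2, τ / 2, c₃ / 2, by positivity, by positivity, by positivity, fun u hu => ?_⟩
  -- one `lam`
  have hone : ∀ lam : ℝ, 0 < lam → ∀ᵐ α : ℝ, α ∈ Set.Ioo (0 : ℝ) 1 → ∃ᶠ K : ℕ in atTop,
      c₃ / 2 * K ≤ (((range K).filter (fun k : ℕ =>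
        κ * (lam / (1 + lam)) * (u k : ℝ) ≤
          (near b α ⌊lam * Real.log (u k)⌋₊ (max 1 (τ * lam)) (u k) : ℝ))).card : ℝ) := by
    intro lam hlam
    obtain ⟨G, hG⟩ : ∃ G : ℕ → Set ℝ, G = fun k : ℕ =>
        {α : ℝ | κ * (lam / (1 + lam)) * (u k : ℝ) ≤
          (near b α ⌊lam * Real.log (u k)⌋₊ (max 1 (τ * lam)) (u k) : ℝ)} := ⟨_, rfl⟩
    have hGm : ∀ k, MeasurableSet (G k) := by
      intro k
      rw [hG]
      exact measurableSet_le measurable_const (near_meas b _ _ (u k))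
    have h1 := io (fun K : ℕ => {α : ℝ | c₃ / 2 * K ≤ hits G K α})
      (fun K => measurableSet_le measurable_const (hits_meas G hGm K)) (c₃ / 4) (by positivity)
      (fun β γ hβ hβγ hγ => by
        obtain ⟨N₀, hN₀⟩ := h lam hlam β γ hβ hβγ hγ
        refine ⟨4 * N₀ + 1, fun K hK => ?_⟩
        refine many G hGm c₃ hc₃ β γ hβγ N₀ (fun k hk => ?_) K hK
        have h2 := hN₀ (u k) (hk.trans hu.le_apply)
        rw [hG]
        exact h2)
    filter_upwards [h1] with α hα h01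
    refine (hα h01).mono fun K hK => ?_
    have h2 : c₃ / 2 * K ≤ hits G K α := hK
    refine h2.trans (le_of_eq ?_)
    unfold hits
    rw [card_filter]
    push_cast
    apply sum_congr rfl
    intro k _
    have h4 : α ∈ G k ↔ κ * (lam / (1 + lam)) * (u k : ℝ) ≤
        (near b α ⌊lam * Real.log (u k)⌋₊ (max 1 (τ * lam)) (u k) : ℝ) := by
      rw [hG]
      exact Iff.rfl
    by_cases h3 : α ∈ G k
    · rw [Set.indicator_of_mem h3, if_pos (h4.1 h3)]
    · rw [Set.indicator_of_notMem h3, if_neg (fun h5 => h3 (h4.2 h5))]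
  have hall : ∀ᵐ α : ℝ, ∀ n : ℤ, α ∈ Set.Ioo (0 : ℝ) 1 → ∃ᶠ K : ℕ in atTop,
      c₃ / 2 * K ≤ (((range K).filter (fun k : ℕ =>
        κ * ((2 : ℝ) ^ n / (1 + (2 : ℝ) ^ n)) * (u k : ℝ) ≤
          (near b α ⌊(2 : ℝ) ^ n * Real.log (u k)⌋₊ (max 1 (τ * (2 : ℝ) ^ n)) (u k) : ℝ))).card : ℝ) :=
    ae_all_iff.2 fun n => hone _ (by positivity)
  filter_upwards [hall] with α hα h01 lam hlam
  obtain ⟨n, hn1, hn2⟩ := exists_mem_Ico_zpow hlam (show (1 : ℝ) < 2 by norm_num)
  have h2 : (0 : ℝ) < (2 : ℝ) ^ n := by positivity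
  have h3 : lam < 2 * (2 : ℝ) ^ n := by
    rw [zpow_add_one₀ (by norm_num)] at hn2
    linarith
  refine (hα n h01).mono fun K hK => ?_
  refine hK.trans ?_
  have hsub : ((range K).filter (fun k : ℕ =>
        κ * ((2 : ℝ) ^ n / (1 + (2 : ℝ) ^ n)) * (u k : ℝ) ≤
          (near b α ⌊(2 : ℝ) ^ n * Real.log (u k)⌋₊ (max 1 (τ * (2 : ℝ) ^ n)) (u k) : ℝ))) ⊆
      ((range K).filter (fun k : ℕ =>
        κ / 2 * (lam / (1 + lam)) * (u k : ℝ) ≤
          (near b α ⌊lam * Real.log (u k)⌋₊ (max 1 (τ / 2 * lam)) (u k) : ℝ))) := by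
    intro k hk
    rw [mem_filter] at hk ⊢
    refine ⟨hk.1, ?_⟩
    have h1 : near b α ⌊(2 : ℝ) ^ n * Real.log (u k)⌋₊ (max 1 (τ * (2 : ℝ) ^ n)) (u k) ≤
        near b α ⌊lam * Real.log (u k)⌋₊ (max 1 (τ / 2 * lam)) (u k) := by
      apply near_mono
      · apply Nat.floor_le_floor
        exact mul_le_mul_of_nonneg_right hn1 (Real.log_natCast_nonneg _)
      · apply max_le_max le_rfl
        nlinarith
    have h1' : (near b α ⌊(2 : ℝ) ^ n * Real.log (u k)⌋₊ (max 1 (τ * (2 : ℝ) ^ n)) (u k) : ℝ) ≤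
        near b α ⌊lam * Real.log (u k)⌋₊ (max 1 (τ / 2 * lam)) (u k) := by
      exact_mod_cast h1
    refine le_trans ?_ (hk.2.trans h1')
    apply mul_le_mul_of_nonneg_right _ (Nat.cast_nonneg _)
    have h4 : lam / (1 + lam) ≤ 2 * ((2 : ℝ) ^ n / (1 + (2 : ℝ) ^ n)) := by
      rw [mul_div_assoc', div_le_div_iff₀ (by positivity) (by positivity)]
      nlinarith
    calc κ / 2 * (lam / (1 + lam)) ≤ κ / 2 * (2 * ((2 : ℝ) ^ n / (1 + (2 : ℝ) ^ n))) :=
          mul_le_mul_of_nonneg_left h4 (by positivity)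
      _ = _ := by ring
  exact_mod_cast card_le_card hsub

end Pool.Agent.P8H13.NQ
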