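import Mathlib
import Pool.Agent.P8H13.NQ.Top
import Pool.Agent.P8H13.CL.Up

/-!
# Primes near prescribed relative positions: all scales, and the final form (helper13)
-/

set_option autoImplicit false

namespace Pool.Agent.P8H13.NQ

open Finset Filter Topology MeasureTheory
open Pool.Agent.P8H13.OP (q q_cast)
open Pool.Agent.P8H13.CL (Bad good q_mod q_ge summable_Bad)
open Pool.Agent.P8H13.NP (wt moments)

/-- the number of the primes `p` with `y < p ≤ y + h` -/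
noncomputable def pri (y h : ℝ) : ℕ := Set.ncard {p : ℕ | p.Prime ∧ y < p ∧ (p : ℝ) ≤ y + h}

theorem fin_pri (y h : ℝ) : {p : ℕ | p.Prime ∧ y < p ∧ (p : ℝ) ≤ y + h}.Finite := by
  apply Set.Finite.subset (Set.finite_Iic ⌊y + h⌋₊)
  rintro p ⟨-, -, h2⟩
  exact Nat.le_floor h2

/-- the number of the `x ∈ (N, 2 N]` with at least `t` primes in `(q b x + α x, q b x + α x + lam log x]` -/
noncomputable def Nr (b : ℤ) (α lam t : ℝ) (N : ℕ) : ℕ :=
  ((Ioc N (2 * N)).filter (fun x : ℕ => t ≤ (pri ((q b x : ℝ) + α * x) (lam * Real.log x) : ℝ))).card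

theorem near_le_Nr (b : ℤ) (α : ℝ) (hα : 0 ≤ α) (lam : ℝ) (hlam : 0 < lam) (t : ℝ) (N : ℕ) (hN : 1 ≤ N) :
    near b α ⌊lam * Real.log N⌋₊ t N ≤ Nr b α lam t N := by
  classical
  unfold near Nr
  apply card_le_card
  intro x hx
  rw [mem_filter, mem_Ioc] at hx
  rw [mem_filter, mem_Ioc]
  refine ⟨hx.1, hx.2.trans ?_⟩
  have hNr : (1 : ℝ) ≤ N := by exact_mod_cast hN
  have hNx : (N : ℝ) ≤ x := by exact_mod_cast hx.1.1.le
  have hlN : 0 ≤ Real.log N := Real.log_nonneg hNr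
  have hlx : Real.log N ≤ Real.log x := Real.log_le_log (by linarith) hNx
  have h3 : lam * Real.log N ≤ lam * Real.log x := mul_le_mul_of_nonneg_left hlx hlam.le
  have h4 : (⌊α * (x : ℝ)⌋₊ : ℝ) ≤ α * x := Nat.floor_le (by positivity)
  have h5 : α * x < (⌊α * (x : ℝ)⌋₊ : ℝ) + 1 := Nat.lt_floor_add_one _
  have hkey : wt ⌊lam * Real.log N⌋₊ (q b x + ⌊α * x⌋₊) ≤ pri ((q b x : ℝ) + α * x) (lam * Real.log x) := by
    unfold wt pri
    obtain ⟨A, hA⟩ : ∃ A : Finset ℕ, A = (Icc 1 ⌊lam * Real.log N⌋₊).filter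
      (fun j => (q b x + ⌊α * x⌋₊ + j).Prime) := ⟨_, rfl⟩
    rw [← hA, ← card_image_of_injective A (f := fun j => q b x + ⌊α * x⌋₊ + j) (add_right_injective _),
      ← Set.ncard_coe_finset]
    apply Set.ncard_le_ncard _ (fin_pri _ _)
    intro p hp
    rw [Finset.mem_coe, mem_image] at hp
    obtain ⟨j, hj, rfl⟩ := hp
    rw [hA, mem_filter, mem_Icc] at hj
    obtain ⟨⟨hj1, hj2⟩, hj3⟩ := hj
    have h2 : (j : ℝ) ≤ lam * Real.log N := by
      have h3 : (j : ℝ) ≤ (⌊lam * Real.log N⌋₊ : ℝ) := by exact_mod_cast hj2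
      exact h3.trans (Nat.floor_le (by positivity))
    have h6 : (1 : ℝ) ≤ j := by exact_mod_cast hj1
    refine ⟨hj3, ?_, ?_⟩
    · push_cast
      linarith
    · push_cast
      linarith
  exact_mod_cast hkey

theorem Nr_le (b : ℤ) (α : ℝ) (hα : 0 ≤ α) (lam : ℝ) (hlam : 0 < lam) (m N H : ℕ) (h1 : m ≤ N) (h2 : N ≤ 2 * m)
    (hH : lam * Real.log (2 * N) + 1 ≤ H) :
    (Nr b α lam 1 N : ℝ) ≤ ∑ x ∈ Ioc m (2 * m), (wt H (q b x + ⌊α * x⌋₊) : ℝ) +
      ∑ x ∈ Ioc (2 * m) (2 * (2 * m)), (wt H (q b x + ⌊α * x⌋₊) : ℝ) := by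
  classical
  have h3 : ∑ x ∈ Ioc m (2 * m), (wt H (q b x + ⌊α * x⌋₊) : ℝ) +
      ∑ x ∈ Ioc (2 * m) (2 * (2 * m)), (wt H (q b x + ⌊α * x⌋₊) : ℝ) =
      ∑ x ∈ Ioc m (2 * m) ∪ Ioc (2 * m) (2 * (2 * m)), (wt H (q b x + ⌊α * x⌋₊) : ℝ) := by
    rw [sum_union]
    rw [disjoint_left]
    intro x h4 h5
    rw [mem_Ioc] at h4 h5
    omega
  rw [h3]
  unfold Nr
  rw [card_filter]
  push_cast
  have h4 : Ioc N (2 * N) ⊆ Ioc m (2 * m) ∪ Ioc (2 * m) (2 * (2 * m)) := by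
    intro x hx
    rw [mem_Ioc] at hx
    rw [mem_union, mem_Ioc, mem_Ioc]
    omega
  refine le_trans (sum_le_sum fun x hx => ?_) (sum_le_sum_of_subset_of_nonneg h4 fun x _ _ => Nat.cast_nonneg _)
  rw [mem_Ioc] at hx
  split_ifs with h5
  · have h5' : 0 < pri ((q b x : ℝ) + α * x) (lam * Real.log x) := by exact_mod_cast h5
    unfold pri at h5'
    obtain ⟨p, hp, h6, h7⟩ := (Set.ncard_pos (fin_pri _ _)).1 h5'
    have hx0 : (0 : ℝ) < x := by exact_mod_cast (by omega : 0 < x)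
    have hx2 : (x : ℝ) ≤ 2 * N := by exact_mod_cast hx.2
    have h8 : (⌊α * (x : ℝ)⌋₊ : ℝ) ≤ α * x := Nat.floor_le (by positivity)
    have h9 : α * x < (⌊α * (x : ℝ)⌋₊ : ℝ) + 1 := Nat.lt_floor_add_one _
    have h10 : lam * Real.log x ≤ lam * Real.log (2 * N) :=
      mul_le_mul_of_nonneg_left (Real.log_le_log hx0 hx2) hlam.le
    have h11 : q b x + ⌊α * (x : ℝ)⌋₊ < p := by
      have : ((q b x + ⌊α * (x : ℝ)⌋₊ : ℕ) : ℝ) < p := by
        push_cast
        linarith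
      exact_mod_cast this
    obtain ⟨j, hj⟩ : ∃ j : ℕ, j = p - (q b x + ⌊α * (x : ℝ)⌋₊) := ⟨_, rfl⟩
    have hpj : q b x + ⌊α * (x : ℝ)⌋₊ + j = p := by omega
    have hjH : j ≤ H := by
      have h12 : (p : ℝ) = (q b x : ℝ) + (⌊α * (x : ℝ)⌋₊ : ℝ) + j := by
        rw [← hpj]
        push_cast
        rfl
      have h13 : (j : ℝ) ≤ H := by linarith
      exact_mod_cast h13
    have h14 : 0 < wt H (q b x + ⌊α * (x : ℝ)⌋₊) := by
      unfold wt
      apply card_pos.2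
      refine ⟨j, ?_⟩
      rw [mem_filter, mem_Icc]
      refine ⟨⟨by omega, hjH⟩, ?_⟩
      rw [hpj]
      exact hp
    exact_mod_cast h14
  · exact Nat.cast_nonneg _

/-- **upper bound** -/
theorem upN (b : ℤ) (hb : b = 0 ∨ b = -1) : ∃ K : ℝ, 0 < K ∧
    ∀ᵐ α : ℝ, α ∈ Set.Ioo (0 : ℝ) 1 → ∀ lam : ℝ, 0 < lam → ∀ᶠ N : ℕ in atTop,
      (Nr b α lam 1 N : ℝ) ≤ K * lam * N := by
  classical
  obtain ⟨C, hC, N₁, hmom⟩ := moments
  have hC0 : 0 < C := by linarith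
  refine ⟨24 * C, by positivity, ?_⟩
  have hbc := ae_eventually_notMem summable_Bad
  filter_upwards [hbc] with α hα h01 lam hlam
  obtain ⟨j₀, hj₀⟩ := eventually_atTop.1 hα
  have hlog : Tendsto (fun N : ℕ => lam * Real.log N) atTop atTop :=
    (Real.tendsto_log_atTop.comp tendsto_natCast_atTop_atTop).const_mul_atTop hlam
  filter_upwards [eventually_ge_atTop (2 ^ (j₀ + N₁ + 2)), hlog.eventually_ge_atTop 2] with N hN hN2
  obtain ⟨j, hj⟩ : ∃ j : ℕ, j = Nat.log 2 N := ⟨_, rfl⟩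
  have hN0 : N ≠ 0 := by
    have : 1 ≤ 2 ^ (j₀ + N₁ + 2) := Nat.one_le_two_pow
    omega
  have h1 : 2 ^ j ≤ N := by
    rw [hj]
    exact Nat.pow_log_le_self 2 hN0
  have h2 : N < 2 ^ (j + 1) := by
    rw [hj]
    exact Nat.lt_pow_succ_log_self (by norm_num) N
  have hjj : j₀ + N₁ + 2 ≤ j := by
    rw [hj]
    exact Nat.le_log_of_pow_le (by norm_num) hN
  obtain ⟨m, hm⟩ : ∃ m : ℕ, m = 2 ^ j := ⟨_, rfl⟩
  have hm2 : 2 * m = 2 ^ (j + 1) := by rw [hm]; ring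
  have hmN : N₁ ≤ m := by
    have h3 : j < 2 ^ j := Nat.lt_pow_self (by norm_num)
    omega
  have hm4 : 4 ≤ m := by
    rw [hm]
    calc 4 = 2 ^ 2 := by norm_num
      _ ≤ 2 ^ j := Nat.pow_le_pow_right (by norm_num) (by omega)
  rw [← hm] at h1
  rw [← hm2] at h2
  obtain ⟨H, hH⟩ : ∃ H : ℕ, H = ⌈lam * Real.log (2 * N) + 1⌉₊ := ⟨_, rfl⟩
  have hH1 : lam * Real.log (2 * N) + 1 ≤ H := by rw [hH]; exact Nat.le_ceil _
  have hNr : (4 : ℝ) ≤ N := by exact_mod_cast hm4.trans h1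
  have hmr : (4 : ℝ) ≤ m := by exact_mod_cast hm4
  have hlN : 0 < Real.log N := Real.log_pos (by linarith)
  have hl2N : Real.log (2 * N) ≤ 2 * Real.log N := by
    have h3 : (2 * (N : ℝ)) ≤ (N : ℝ) ^ 2 := by nlinarith
    have h4 := Real.log_le_log (by linarith) h3
    rw [Real.log_pow] at h4
    exact_mod_cast h4
  have hH2 : (H : ℝ) ≤ 3 * (lam * Real.log N) := by
    have h3 : 0 ≤ lam * Real.log (2 * N) + 1 := by
      have : 0 ≤ Real.log (2 * (N : ℝ)) := Real.log_nonneg (by linarith)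
      positivity
    have h4 : (H : ℝ) < lam * Real.log (2 * N) + 1 + 1 := by rw [hH]; exact Nat.ceil_lt_add_one h3
    have h5 : lam * Real.log (2 * N) ≤ lam * (2 * Real.log N) := mul_le_mul_of_nonneg_left hl2N hlam.le
    linarith
  have h3 := Nr_le b α h01.1.le lam hlam m N H h1 h2.le hH1
  -- the two dyadic ranges
  have hdy : ∀ M : ℕ, m ≤ M → α ∉ Bad M → M ≤ 2 * m →
      ∑ x ∈ Ioc M (2 * M), (wt H (q b x + ⌊α * x⌋₊) : ℝ) ≤ C * (6 * lam) * M := by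
    intro M hM hMB hM2
    have hMr : (m : ℝ) ≤ M := by exact_mod_cast hM
    obtain ⟨h, qq, hq1, hq2, hq3, hq4, hq5⟩ := good M (by omega) α h01.1.le h01.2.le hMB
    have h4 := (hmom M (by omega) (q b) (q_mod b hb) (q_ge b hb M) α h qq h01.1.le hq1 hq2 hq3 hq4 hq5 H).1
    refine h4.trans ?_
    have hlM : 0 < Real.log M := Real.log_pos (by linarith)
    have h5 : Real.log N ≤ 2 * Real.log M := by
      have h6 : (N : ℝ) ≤ (M : ℝ) ^ 2 := by
        have h7 : (N : ℝ) ≤ 2 * m := by exact_mod_cast h2.le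
        nlinarith
      have h8 := Real.log_le_log (by linarith) h6
      rw [Real.log_pow] at h8
      exact_mod_cast h8
    have h6 : (H : ℝ) / Real.log M ≤ 6 * lam := by
      rw [div_le_iff₀ hlM]
      nlinarith
    have hM0 : (0 : ℝ) ≤ M := by linarith
    gcongr
  have hB1 : α ∉ Bad m := by
    rw [hm]
    exact hj₀ j (by omega)
  have hB2 : α ∉ Bad (2 * m) := by
    rw [hm2]
    exact hj₀ (j + 1) (by omega)
  have h4 := hdy m le_rfl hB1 (by omega)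
  have h5 := hdy (2 * m) (by omega) hB2 le_rfl
  have h6 : (m : ℝ) ≤ N := by exact_mod_cast h1
  push_cast at h5
  have h7 : C * lam * m ≤ C * lam * N := mul_le_mul_of_nonneg_left h6 (by positivity)
  calc (Nr b α lam 1 N : ℝ) ≤ C * (6 * lam) * m + C * (6 * lam) * (2 * m) := h3.trans (add_le_add h4 h5)
    _ = 18 * (C * lam * m) := by ring
    _ ≤ 18 * (C * lam * N) := by linarith
    _ ≤ 24 * C * lam * N := by
        have : 0 ≤ C * lam * N := by positivity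
        linarith

end Pool.Agent.P8H13.NQ
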